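import Pool.Agent.Helper74.HG.Goals

/-!
# Project HG, packet BST: the functional equation for `f + w l`
-/

namespace Pool.Agent.Helper58.HG.BST

open MvPolynomial Pool.Agent.Helper74.HG

variable {σ : Type}

/-- The inclusion of the polynomial rings. -/
noncomputable def io : MvPolynomial σ ℂ →ₐ[ℂ] MvPolynomial (Option (Option σ)) ℂ :=
  rename (fun i => some (some i))

theorem inj2 : Function.Injective (fun i : σ => some (some i)) := fun _ _ h => by simpa using h

theorem io_X (i : σ) : io (X i : MvPolynomial σ ℂ) = X (some (some i)) := by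
  unfold io
  rw [rename_X]

theorem pd_io0 (k : Option (Option σ)) (hk : ∀ i, some (some i) ≠ k) (g : MvPolynomial σ ℂ) :
    pderiv k (io g) = 0 := by
  induction g using MvPolynomial.induction_on with
  | C a => simp [io]
  | add p q hp hq => rw [map_add, map_add, hp, hq, add_zero]
  | mul_X p i hp =>
    rw [map_mul, pderiv_mul, hp, zero_mul, zero_add, io_X, pderiv_X_of_ne (hk i), mul_zero]

/-- The variables `w`, `l`. -/
noncomputable abbrev w : MvPolynomial (Option (Option σ)) ℂ := X none
noncomputable abbrev l : MvPolynomial (Option (Option σ)) ℂ := X (some none)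

/-- `ι g w^j l^i`. -/
noncomputable def mn (g : MvPolynomial σ ℂ) (j i : ℕ) : MvPolynomial (Option (Option σ)) ℂ :=
  io g * w ^ j * l ^ i

/-- The constant functions with values derivatives and multiplications. -/
noncomputable def dd {τ : Type} (k : τ) : ℂ → Module.End ℂ (MvPolynomial τ ℂ) :=
  fun _ : ℂ => ((pderiv k : Derivation ℂ (MvPolynomial τ ℂ) (MvPolynomial τ ℂ)) :
          MvPolynomial τ ℂ →ₗ[ℂ] MvPolynomial τ ℂ)

noncomputable def mm {τ : Type} (r : MvPolynomial τ ℂ) : ℂ → Module.End ℂ (MvPolynomial τ ℂ) :=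
  fun _ : ℂ => LinearMap.mulLeft ℂ r

noncomputable def ss {τ : Type} : ℂ → Module.End ℂ (MvPolynomial τ ℂ) :=
  fun s : ℂ => s • (1 : Module.End ℂ (MvPolynomial τ ℂ))

theorem dd_mem {τ : Type} (k : τ) : dd k ∈ DS τ :=
  Algebra.subset_adjoin (Or.inl (Or.inr ⟨k, rfl⟩))

theorem ss_mem {τ : Type} : (ss : ℂ → Module.End ℂ (MvPolynomial τ ℂ)) ∈ DS τ :=
  Algebra.subset_adjoin (Or.inr rfl)

theorem mmX_mem {τ : Type} (k : τ) : mm (X k : MvPolynomial τ ℂ) ∈ DS τ :=
  Algebra.subset_adjoin (Or.inl (Or.inl ⟨k, rfl⟩))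

theorem mm_mem {τ : Type} (r : MvPolynomial τ ℂ) : mm r ∈ DS τ := by
  induction r using MvPolynomial.induction_on with
  | C a =>
    have : mm (C a : MvPolynomial τ ℂ) = algebraMap ℂ _ a := by
      funext s
      apply LinearMap.ext
      intro g
      simp only [mm, LinearMap.mulLeft_apply, Pi.algebraMap_apply, Module.algebraMap_end_apply]
      rw [MvPolynomial.smul_eq_C_mul]
    rw [this]
    exact Subalgebra.algebraMap_mem _ _
  | add p q hp hq =>
    have : mm (p + q) = mm p + mm q := by
      funext s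
      apply LinearMap.ext
      intro g
      simp [mm, add_mul]
    rw [this]
    exact Subalgebra.add_mem _ hp hq
  | mul_X p i hp =>
    have : mm (p * X i) = mm p * mm (X i) := by
      funext s
      apply LinearMap.ext
      intro g
      simp [mm]
    rw [this]
    exact Subalgebra.mul_mem _ hp (mmX_mem i)

theorem E_mn (g : MvPolynomial σ ℂ) (j i : ℕ) :
    pderiv none (w * mn g j i) = ((j : ℂ) + 1) • mn g j i := by
  have e : w * mn g j i = io g * l ^ i * w ^ (j + 1) := by
    unfold mn
    ring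
  have h1 : pderiv none (l ^ i : MvPolynomial (Option (Option σ)) ℂ) = 0 := by
    rw [Derivation.leibniz_pow, pderiv_X_of_ne (by simp), smul_zero, smul_zero]
  have h2 : pderiv none (io g * l ^ i) = 0 := by
    rw [pderiv_mul, h1, pd_io0 none (by simp), zero_mul, mul_zero, add_zero]
  rw [e, pderiv_mul, h2, zero_mul, zero_add, Derivation.leibniz_pow, pderiv_X_self]
  unfold mn
  simp only [Nat.add_sub_cancel, smul_eq_mul, mul_one, nsmul_eq_mul, Nat.cast_add, Nat.cast_one,
    MvPolynomial.smul_eq_C_mul, map_add, map_natCast, map_one]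
  ring

/-- `E = ∂_w ∘ w`. -/
noncomputable def EE : ℂ → Module.End ℂ (MvPolynomial (Option (Option σ)) ℂ) := dd none * mm w

theorem EE_mem : (EE : ℂ → Module.End ℂ (MvPolynomial (Option (Option σ)) ℂ)) ∈ DS _ :=
  Subalgebra.mul_mem _ (dd_mem _) (mm_mem _)

theorem EE_apply (s : ℂ) (g : MvPolynomial (Option (Option σ)) ℂ) :
    EE s g = pderiv none (w * g) := rfl

/-- (1) of the proof. -/
theorem lift {P : ℂ → Module.End ℂ (MvPolynomial σ ℂ)} (hP : P ∈ DS σ) :
    ∃ P' ∈ DS (Option (Option σ)), ∀ (s : ℂ) (j i : ℕ) (g : MvPolynomial σ ℂ),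
      P' s (mn g j i) = mn (P (s - j) g) j i := by
  unfold DS at hP
  induction hP using Algebra.adjoin_induction with
  | mem x hx =>
    rcases hx with (⟨i, rfl⟩ | ⟨i, rfl⟩) | rfl
    · refine ⟨mm (X (some (some i))), mm_mem _, fun s j k g => ?_⟩
      simp only [mm, LinearMap.mulLeft_apply, mn, map_mul, io_X]
      ring
    · refine ⟨dd (some (some i)), dd_mem _, fun s j k g => ?_⟩
      have h1 : ∀ n : ℕ, pderiv (some (some i)) (l ^ n : MvPolynomial (Option (Option σ)) ℂ) = 0 := by
        intro n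
        rw [Derivation.leibniz_pow, pderiv_X_of_ne (by simp), smul_zero, smul_zero]
      have h2 : ∀ n : ℕ, pderiv (some (some i)) (w ^ n : MvPolynomial (Option (Option σ)) ℂ) = 0 := by
        intro n
        rw [Derivation.leibniz_pow, pderiv_X_of_ne (by simp), smul_zero, smul_zero]
      have h3 : pderiv (some (some i)) (io g) = io (pderiv i g) := by
        unfold io
        exact pderiv_rename inj2 i g
      change pderiv (some (some i)) (mn g j k) = mn (pderiv i g) j k
      unfold mn
      rw [pderiv_mul, pderiv_mul, h1, h2, h3]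
      ring
    · refine ⟨ss + 1 - EE, Subalgebra.sub_mem _ (Subalgebra.add_mem _ ss_mem (Subalgebra.one_mem _))
        EE_mem, fun s j k g => ?_⟩
      have e1 : (ss + 1 - EE : ℂ → Module.End ℂ (MvPolynomial (Option (Option σ)) ℂ)) s (mn g j k) =
          s • mn g j k + mn g j k - pderiv none (w * mn g j k) := rfl
      rw [e1, E_mn]
      have e2 : ((s - (j : ℂ)) • (1 : Module.End ℂ (MvPolynomial σ ℂ))) g = (s - (j : ℂ)) • g := rfl
      rw [e2]
      unfold mn
      rw [map_smul]
      simp only [MvPolynomial.smul_eq_C_mul, map_add, map_sub, map_natCast, map_one]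
      ring
  | algebraMap r =>
    refine ⟨algebraMap ℂ _ r, Subalgebra.algebraMap_mem _ _, fun s j k g => ?_⟩
    simp only [Pi.algebraMap_apply, Module.algebraMap_end_apply]
    unfold mn
    rw [map_smul, smul_mul_assoc, smul_mul_assoc]
  | add x y _ _ hx hy =>
    obtain ⟨x', hx', hx2⟩ := hx
    obtain ⟨y', hy', hy2⟩ := hy
    refine ⟨x' + y', Subalgebra.add_mem _ hx' hy', fun s j k g => ?_⟩
    rw [Pi.add_apply, Pi.add_apply, LinearMap.add_apply, LinearMap.add_apply, hx2, hy2]
    unfold mn
    rw [map_add]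
    ring
  | mul x y _ _ hx hy =>
    obtain ⟨x', hx', hx2⟩ := hx
    obtain ⟨y', hy', hy2⟩ := hy
    refine ⟨x' * y', Subalgebra.mul_mem _ hx' hy', fun s j k g => ?_⟩
    rw [Pi.mul_apply, Pi.mul_apply, Module.End.mul_apply, Module.End.mul_apply, hy2, hx2]

/-- `F = ι f + w l`. -/
noncomputable def FF (f : MvPolynomial σ ℂ) : MvPolynomial (Option (Option σ)) ℂ := io f + w * l

/-- `∑_j (N choose j) b(N-j) ι f^(N-j) (w l)^j`. -/
noncomputable def TT (f : MvPolynomial σ ℂ) (b : Polynomial ℂ) (N : ℕ) :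
    MvPolynomial (Option (Option σ)) ℂ :=
  ∑ j ∈ Finset.range (N + 1), ((N.choose j : ℂ) * b.eval ((N : ℂ) - j)) • mn (f ^ (N - j)) j j

theorem FF_pow (f : MvPolynomial σ ℂ) (N : ℕ) :
    FF f ^ N = ∑ j ∈ Finset.range (N + 1), (N.choose j : ℂ) • mn (f ^ (N - j)) j j := by
  unfold FF
  rw [add_comm, add_pow]
  apply Finset.sum_congr rfl
  intro j _
  unfold mn
  rw [map_pow, MvPolynomial.smul_eq_C_mul, map_natCast]
  ring

theorem TT_C (f : MvPolynomial σ ℂ) (a : ℂ) (N : ℕ) :
    TT f (Polynomial.C a) N = a • FF f ^ N := by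
  rw [FF_pow, Finset.smul_sum]
  unfold TT
  apply Finset.sum_congr rfl
  intro j _
  rw [Polynomial.eval_C, smul_smul, mul_comm]

theorem TT_add (f : MvPolynomial σ ℂ) (b c : Polynomial ℂ) (N : ℕ) :
    TT f (b + c) N = TT f b N + TT f c N := by
  unfold TT
  rw [← Finset.sum_add_distrib]
  apply Finset.sum_congr rfl
  intro j _
  rw [Polynomial.eval_add, mul_add, add_smul]

theorem TT_X (f : MvPolynomial σ ℂ) (b : Polynomial ℂ) (N : ℕ) :
    TT f (b * Polynomial.X) N = ((N : ℂ) + 1) • TT f b N - pderiv none (w * TT f b N) := by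
  unfold TT
  rw [Finset.mul_sum, map_sum, Finset.smul_sum, ← Finset.sum_sub_distrib]
  apply Finset.sum_congr rfl
  intro j _
  rw [mul_smul_comm, Derivation.map_smul, E_mn, Polynomial.eval_mul, Polynomial.eval_X, smul_smul,
    smul_smul, ← sub_smul]
  congr 1
  ring

theorem dl_FF (f : MvPolynomial σ ℂ) (N : ℕ) :
    pderiv (some none) (FF f ^ (N + 1)) = ((N : ℂ) + 1) • (w * FF f ^ N) := by
  have h : pderiv (some none) (FF f) = w := by
    unfold FF
    rw [map_add, pd_io0 _ (by simp), pderiv_mul, pderiv_X_of_ne (by simp), pderiv_X_self]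
    ring
  rw [Derivation.leibniz_pow, h]
  simp only [Nat.add_sub_cancel, smul_eq_mul, nsmul_eq_mul, Nat.cast_add, Nat.cast_one,
    MvPolynomial.smul_eq_C_mul, map_add, map_natCast, map_one]
  ring

/-- (4) of the proof. -/
theorem exG (f : MvPolynomial σ ℂ) (b : Polynomial ℂ) :
    (fun s : ℂ => b.eval (s + 1) • (1 : Module.End ℂ (MvPolynomial (Option (Option σ)) ℂ))) ∈ DS _ ∧
    ∃ G ∈ DS (Option (Option σ)), ∀ N : ℕ, ((N : ℂ) + 1) • TT f b N =
      (((N : ℂ) + 1) * b.eval ((N : ℂ) + 1)) • FF f ^ N + G (N : ℂ) (FF f ^ (N + 1)) := by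
  induction b using Polynomial.induction_on with
  | C a =>
    refine ⟨?_, 0, Subalgebra.zero_mem _, fun N => ?_⟩
    · have : (fun s : ℂ => (Polynomial.C a).eval (s + 1) •
          (1 : Module.End ℂ (MvPolynomial (Option (Option σ)) ℂ))) = algebraMap ℂ _ a := by
        funext s
        rw [Polynomial.eval_C]
        rfl
      rw [this]
      exact Subalgebra.algebraMap_mem _ _
    · rw [TT_C, Polynomial.eval_C, smul_smul]
      simp
  | add p q hp hq =>
    obtain ⟨hp1, G, hG, hp2⟩ := hp
    obtain ⟨hq1, G', hG', hq2⟩ := hq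
    refine ⟨?_, G + G', Subalgebra.add_mem _ hG hG', fun N => ?_⟩
    · have := Subalgebra.add_mem _ hp1 hq1
      convert this using 1
      funext s
      rw [Polynomial.eval_add, add_smul]
      rfl
    · rw [TT_add, smul_add, hp2, hq2, Polynomial.eval_add, mul_add, add_smul, Pi.add_apply,
        LinearMap.add_apply]
      abel
  | monomial n a h =>
    obtain ⟨h1, G, hG, h2⟩ := h
    rw [pow_succ, ← mul_assoc]
    set c : Polynomial ℂ := Polynomial.C a * Polynomial.X ^ n
    clear_value c
    refine ⟨?_, (ss + 1 - EE) * G -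
      (fun s : ℂ => c.eval (s + 1) • (1 : Module.End ℂ (MvPolynomial (Option (Option σ)) ℂ))) *
        (dd none * dd (some none)), ?_, fun N => ?_⟩
    · have := Subalgebra.mul_mem _ h1 (Subalgebra.add_mem _ (ss_mem (τ := Option (Option σ)))
        (Subalgebra.one_mem _))
      convert this using 1
      funext s
      rw [Polynomial.eval_mul, Polynomial.eval_X]
      change _ = (c.eval (s + 1) • (1 : Module.End ℂ (MvPolynomial (Option (Option σ)) ℂ))) *
        (s • (1 : Module.End ℂ (MvPolynomial (Option (Option σ)) ℂ)) + 1)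
      rw [smul_mul_assoc, one_mul, mul_smul, add_smul, one_smul]
    · exact Subalgebra.sub_mem _ (Subalgebra.mul_mem _ (Subalgebra.sub_mem _
        (Subalgebra.add_mem _ ss_mem (Subalgebra.one_mem _)) EE_mem) hG)
        (Subalgebra.mul_mem _ h1 (Subalgebra.mul_mem _ (dd_mem _) (dd_mem _)))
    · have e1 : ((ss + 1 - EE) * G -
          (fun s : ℂ => c.eval (s + 1) • (1 : Module.End ℂ (MvPolynomial (Option (Option σ)) ℂ))) *
            (dd none * dd (some none)) :
            ℂ → Module.End ℂ (MvPolynomial (Option (Option σ)) ℂ)) (N : ℂ) (FF f ^ (N + 1)) =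
          ((N : ℂ) • G (N : ℂ) (FF f ^ (N + 1)) + G (N : ℂ) (FF f ^ (N + 1)) -
            pderiv none (w * G (N : ℂ) (FF f ^ (N + 1)))) -
          c.eval ((N : ℂ) + 1) • pderiv none (pderiv (some none) (FF f ^ (N + 1))) := rfl
      rw [e1, TT_X, smul_sub, smul_smul, mul_comm, ← smul_smul, h2]
      have e3 : ((N : ℂ) + 1) • pderiv none (w * TT f c N) =
          pderiv none (w * (((N : ℂ) + 1) • TT f c N)) := by
        rw [mul_smul_comm, Derivation.map_smul]
      rw [e3, h2, dl_FF, mul_add, map_add, mul_smul_comm, Derivation.map_smul, Derivation.map_smul,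
        Polynomial.eval_mul, Polynomial.eval_X]
      simp only [smul_add, smul_smul, add_smul, one_smul, mul_add, add_mul, mul_one, one_mul]
      simp only [MvPolynomial.smul_eq_C_mul, map_add, map_mul, map_natCast, map_one]
      ring

/-- **BST.** -/
theorem t : Pool.Agent.Helper74.HG.BST := by
  intro σ _ f b hb
  obtain ⟨P, hP, h, hh, hN⟩ := hb
  obtain ⟨P', hP', hl⟩ := lift hP
  obtain ⟨-, G, hG, h2⟩ := exG f b
  refine ⟨P' * (ss + 1 - mm l * dd (some none)) - mm (io h) * G, ?_, io h, ?_, fun N => ?_⟩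
  · exact Subalgebra.sub_mem _ (Subalgebra.mul_mem _ hP' (Subalgebra.sub_mem _
      (Subalgebra.add_mem _ ss_mem (Subalgebra.one_mem _))
      (Subalgebra.mul_mem _ (mm_mem _) (dd_mem _)))) (Subalgebra.mul_mem _ (mm_mem _) hG)
  · unfold io
    rw [constantCoeff_rename]
    exact hh
  · have hF : stabC f = FF f := rfl
    rw [hF]
    have e1 : (P' * (ss + 1 - mm l * dd (some none)) - mm (io h) * G :
        ℂ → Module.End ℂ (MvPolynomial (Option (Option σ)) ℂ)) (N : ℂ) (FF f ^ (N + 1)) =
        P' (N : ℂ) ((N : ℂ) • FF f ^ (N + 1) + FF f ^ (N + 1) -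
          l * pderiv (some none) (FF f ^ (N + 1))) - io h * G (N : ℂ) (FF f ^ (N + 1)) := rfl
    have e2 : (N : ℂ) • FF f ^ (N + 1) + FF f ^ (N + 1) -
        l * pderiv (some none) (FF f ^ (N + 1)) = ((N : ℂ) + 1) • (io f * FF f ^ N) := by
      rw [dl_FF]
      have e3 : io f = FF f - w * l := by
        unfold FF
        ring
      rw [e3]
      simp only [MvPolynomial.smul_eq_C_mul, map_add, map_natCast, map_one]
      ring
    have e4 : P' (N : ℂ) (io f * FF f ^ N) = io h * TT f b N := by
      rw [FF_pow, Finset.mul_sum, map_sum]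
      unfold TT
      rw [Finset.mul_sum]
      apply Finset.sum_congr rfl
      intro j hj
      rw [Finset.mem_range] at hj
      have e5 : io f * ((N.choose j : ℂ) • mn (f ^ (N - j)) j j) =
          (N.choose j : ℂ) • mn (f ^ (N - j + 1)) j j := by
        rw [mul_smul_comm]
        congr 1
        unfold mn
        rw [map_pow, map_pow]
        ring
      rw [e5, map_smul, hl, show (N : ℂ) - (j : ℂ) = ((N - j : ℕ) : ℂ) by
        rw [Nat.cast_sub (by omega)], hN (N - j)]
      unfold mn
      simp only [MvPolynomial.smul_eq_C_mul, map_mul, map_pow, map_natCast]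
      have e6 : io (C (b.eval ((N - j : ℕ) : ℂ)) : MvPolynomial σ ℂ) =
          C (b.eval ((N - j : ℕ) : ℂ)) := by
        unfold io
        rw [rename_C]
      rw [e6]
      ring
    rw [e1, e2, map_smul, e4]
    have e7 : ((N : ℂ) + 1) • (io h * TT f b N) = io h * (((N : ℂ) + 1) • TT f b N) := by
      rw [mul_smul_comm]
    rw [e7, h2]
    simp only [Polynomial.eval_mul, Polynomial.eval_add, Polynomial.eval_X, Polynomial.eval_one,
      Polynomial.eval_comp, MvPolynomial.smul_eq_C_mul, map_add, map_mul, map_natCast, map_one]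
    ring

end Pool.Agent.Helper58.HG.BST
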