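import Pool.Agent.Helper74.HG.GoalsC

/-!
# Project HG, packet ZPI: products in separate variables
-/

namespace Pool.Agent.Helper58.HG.ZPI

open MvPolynomial Pool.Agent.Helper74.HG

theorem tt_ne_zero (E : Type) [Field E] {m : ℕ} (hm : 1 ≤ m) : tt E m ≠ 0 := by
  unfold tt
  rw [Ne, Ideal.Quotient.eq_zero_iff_mem, Ideal.mem_span_singleton]
  intro h
  have := Polynomial.natDegree_le_of_dvd h Polynomial.X_ne_zero
  rw [Polynomial.natDegree_X_pow, Polynomial.natDegree_X] at this
  omega

theorem tt_zero (E : Type) [Field E] : tt E 0 = 0 := by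
  unfold tt
  rw [Ideal.Quotient.eq_zero_iff_mem, Ideal.mem_span_singleton, zero_add, pow_one]

theorem one_ne (E : Type) [Field E] (m : ℕ) : (1 : Tr E m) ≠ 0 := by
  rw [← map_one (Ideal.Quotient.mk (Ideal.span {(Polynomial.X : Polynomial E) ^ (m + 1)})), Ne,
    Ideal.Quotient.eq_zero_iff_mem, Ideal.mem_span_singleton]
  intro h
  have := Polynomial.natDegree_le_of_dvd h one_ne_zero
  rw [Polynomial.natDegree_X_pow, Polynomial.natDegree_one] at this
  omega

theorem cnt_one (E : Type) [Field E] (τ : Type) [IsEmpty τ] (m : ℕ) :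
    cntK E (1 : MvPolynomial τ E) m = if m = 0 then 1 else 0 := by
  unfold cntK JetK
  split_ifs with h
  · subst h
    have : {x : τ → Tr E 0 | x ∈ Arc E τ 0 ∧ tt E 0 * aeval x (1 : MvPolynomial τ E) = 0 ∧
        aeval x (1 : MvPolynomial τ E) ≠ 0} = {fun i => isEmptyElim i} := by
      ext x
      simp only [Set.mem_ofPred_eq, Set.mem_singleton_iff]
      constructor
      · intro _
        funext i
        exact isEmptyElim i
      · intro _
        refine ⟨fun i => isEmptyElim i, ?_, ?_⟩
        · rw [tt_zero, zero_mul]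
        · rw [map_one]
          exact one_ne E 0
    rw [this, Set.ncard_singleton]
  · have : {x : τ → Tr E m | x ∈ Arc E τ m ∧ tt E m * aeval x (1 : MvPolynomial τ E) = 0 ∧
        aeval x (1 : MvPolynomial τ E) ≠ 0} = ∅ := by
      rw [Set.eq_empty_iff_forall_notMem]
      rintro x ⟨-, h2, -⟩
      rw [map_one, mul_one] at h2
      exact tt_ne_zero E (Nat.one_le_iff_ne_zero.2 h) h2
    rw [this, Set.ncard_empty]

theorem isZ_one (τ : Type) [Fintype τ] [IsEmpty τ] : IsZ (1 : MvPolynomial τ ℂ) 1 := by
  refine ⟨∅, 1, [(1, [])], ?_, ?_, ?_, ?_⟩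
  · rw [map_one]
  · intro S hS d hd
    rw [List.mem_singleton] at hS
    subst hS
    simp at hd
  · intro K _ _ ψ
    refine ⟨[(fun _ => 1, (1, []))], by simp, ?_, ?_⟩
    · intro T hT
      rw [List.mem_singleton] at hT
      subst hT
      exact ⟨1, fun _ => 1, fun _ => 1, fun _ => one_ne_zero, fun e _ => by simp, by simp⟩
    · intro E _ _ _ m
      rw [map_one, map_one, cnt_one, Fintype.card_eq_zero, zero_mul, pow_zero, div_one]
      simp only [List.map_cons, List.map_nil, List.prod_nil, mul_one, List.sum_cons,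
        List.sum_nil, add_zero, map_one]
      rw [PowerSeries.coeff_one]
      split_ifs <;> simp
  · simp [ratS]

/-- `(α × σ) ⊕ σ ≃ Option α × σ`. -/
def eqv (α σ : Type) : (α × σ) ⊕ σ ≃ Option α × σ where
  toFun := fun z => Sum.elim (fun p => (some p.1, p.2)) (fun x => (none, x)) z
  invFun := fun z => match z with
    | (some a, x) => Sum.inl (a, x)
    | (none, x) => Sum.inr x
  left_inv := by
    rintro (⟨a, x⟩ | x) <;> rfl
  right_inv := by
    rintro ⟨(_ | a), x⟩ <;> rfl

theorem pres_rename {σ τ : Type} (e : σ ≃ τ) : PresC (renameEquiv ℂ e) := by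
  intro i
  rw [renameEquiv_apply, rename_X, constantCoeff_X]

/-- **ZPI.** -/
theorem t (hp : ZPR) (hi : ZIS) : ZPI := by
  intro σ hσ ι hι
  refine Fintype.induction_empty_option (P := fun ι inst => ∀ (f : ι → MvPolynomial σ ℂ)
    (Z : ι → RatFunc ℂ), (∀ i, IsZ (f i) (Z i)) →
      IsZ (∏ i, rename (fun x => (i, x)) (f i)) (∏ i, Z i)) ?_ ?_ ?_ ι
  · intro α β _ e ih f Z h
    letI : Fintype α := Fintype.ofEquiv β e.symm
    have h1 := ih (fun a => f (e a)) (fun a => Z (e a)) (fun a => h (e a))
    have h2 := hi (renameEquiv ℂ (e.prodCongr (Equiv.refl σ))) (pres_rename _) _ _ h1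
    have e1 : (∏ a, Z (e a)) = ∏ b, Z b := Equiv.prod_comp e Z
    have e2 : renameEquiv ℂ (e.prodCongr (Equiv.refl σ))
        (∏ a, rename (fun x => (a, x)) (f (e a))) = ∏ b, rename (fun x => (b, x)) (f b) := by
      rw [map_prod, ← Equiv.prod_comp e (fun b => rename (fun x => (b, x)) (f b))]
      apply Finset.prod_congr rfl
      intro a _
      rw [renameEquiv_apply, rename_rename]
      rfl
    rw [e1, e2] at h2
    exact h2
  · intro f Z _
    rw [Finset.univ_eq_empty, Finset.prod_empty, Finset.prod_empty]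
    exact isZ_one _
  · intro α _ ih f Z h
    have h1 := ih (fun a => f (some a)) (fun a => Z (some a)) (fun a => h (some a))
    have h2 := hp _ _ _ _ h1 (h none)
    have h3 := hi (renameEquiv ℂ (eqv α σ)) (pres_rename _) _ _ h2
    rw [Fintype.prod_option, Fintype.prod_option, mul_comm (Z none), mul_comm (rename _ (f none))]
    have e2 : renameEquiv ℂ (eqv α σ)
        (rename Sum.inl (∏ a, rename (fun x => (a, x)) (f (some a))) *
          rename Sum.inr (f none)) =
        (∏ a, rename (fun x => (some a, x)) (f (some a))) * rename (fun x => (none, x)) (f none) := by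
      rw [map_mul, map_prod, map_prod, renameEquiv_apply, rename_rename]
      congr 1
      apply Finset.prod_congr rfl
      intro a _
      rw [renameEquiv_apply, rename_rename, rename_rename]
      rfl
    rw [e2] at h3
    exact h3

end Pool.Agent.Helper58.HG.ZPI
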